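import Pool.Agent.D0H45.PG.Stm

/-!
# Project PG (helper45), module CHEB: many primes in `(X / 4, X]`
-/

set_option autoImplicit false

namespace Pool.Agent.D0H30.PG

open Finset Filter Pool.Agent.D0H45.PG

lemma theta_diff (X : ℝ) (hX : 4 ≤ X) : Chebyshev.theta X - Chebyshev.theta (X / 4) ≤
    (((Ioc ⌊X / 4⌋₊ ⌊X⌋₊).filter Nat.Prime).card : ℝ) * Real.log X := by
  have hle : ⌊X / 4⌋₊ ≤ ⌊X⌋₊ := Nat.floor_le_floor (by linarith)
  have h1 : Chebyshev.theta X = Chebyshev.theta (X / 4) +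
      ∑ p ∈ (Ioc ⌊X / 4⌋₊ ⌊X⌋₊).filter Nat.Prime, Real.log p := by
    unfold Chebyshev.theta
    rw [← Finset.sum_union]
    · congr 1
      rw [← Finset.filter_union]
      congr 1
      ext n
      simp only [mem_Ioc, mem_union]
      omega
    · rw [Finset.disjoint_left]
      intro n hn hn'
      have a := (mem_Ioc.1 (mem_filter.1 hn).1).2
      have b := (mem_Ioc.1 (mem_filter.1 hn').1).1
      omega
  rw [h1]
  have h2 : ∑ p ∈ (Ioc ⌊X / 4⌋₊ ⌊X⌋₊).filter Nat.Prime, Real.log p ≤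
      ∑ p ∈ (Ioc ⌊X / 4⌋₊ ⌊X⌋₊).filter Nat.Prime, Real.log X := by
    apply sum_le_sum
    intro p hp
    obtain ⟨h3, h4⟩ := mem_filter.1 hp
    apply Real.log_le_log (by exact_mod_cast h4.pos)
    exact (Nat.le_floor_iff (by linarith)).1 (mem_Ioc.1 h3).2
  rw [sum_const, nsmul_eq_mul] at h2
  linarith

/-- Chebyshev -/
theorem t_CHEB : S_CHEB := by
  have e1 : ∀ᶠ x : ℝ in atTop, ‖Real.log x‖ ≤ (1 / 200) * ‖x ^ (1 / 4 : ℝ)‖ :=
    (isLittleO_log_rpow_atTop (by norm_num : (0 : ℝ) < 1 / 4)).bound (by norm_num)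
  have e2 : ∀ᶠ x : ℝ in atTop, (1 : ℝ) ≤ Real.log x := Real.tendsto_log_atTop.eventually_ge_atTop 1
  obtain ⟨X₁, hX₁⟩ := eventually_atTop.1 (e1.and e2)
  refine ⟨1 / 10, max X₁ 100, by norm_num, fun X hX => ?_⟩
  obtain ⟨h1, h2⟩ := hX₁ X ((le_max_left _ _).trans hX)
  have hX100 : (100 : ℝ) ≤ X := (le_max_right _ _).trans hX
  have hX0 : 0 < X := by linarith
  rw [Real.norm_of_nonneg (by linarith), Real.norm_of_nonneg (by positivity)] at h1
  have hlow := Chebyshev.theta_ge' (show (1 : ℝ) ≤ X by linarith)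
  have hup := Chebyshev.theta_le_log4_mul_x (show (0 : ℝ) ≤ X / 4 by linarith)
  have hd := theta_diff X (by linarith)
  have hl4 : Real.log 4 = 2 * Real.log 2 := by
    rw [show (4 : ℝ) = 2 ^ 2 by norm_num, Real.log_pow]
    norm_num
  have hl2 := Real.log_two_gt_d9
  have hl2' := Real.log_two_lt_d9
  have hlog2 : Real.log (X + 2) ≤ 2 * Real.log X := by
    have : Real.log (X + 2) ≤ Real.log (X ^ 2) := Real.log_le_log (by linarith) (by nlinarith)
    rw [Real.log_pow] at this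
    exact_mod_cast this
  have hX4 : X ^ (1 / 4 : ℝ) ≤ X := by
    calc X ^ (1 / 4 : ℝ) ≤ X ^ (1 : ℝ) := Real.rpow_le_rpow_of_exponent_le (by linarith) (by norm_num)
      _ = X := Real.rpow_one X
  have hsq : Real.sqrt X * X ^ (1 / 4 : ℝ) ≤ X := by
    rw [Real.sqrt_eq_rpow, ← Real.rpow_add hX0]
    calc X ^ (1 / 2 + 1 / 4 : ℝ) ≤ X ^ (1 : ℝ) :=
          Real.rpow_le_rpow_of_exponent_le (by linarith) (by norm_num)
      _ = X := Real.rpow_one X
  have hsl : Real.sqrt X * Real.log X ≤ X / 200 := by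
    calc Real.sqrt X * Real.log X ≤ Real.sqrt X * (1 / 200 * X ^ (1 / 4 : ℝ)) :=
          mul_le_mul_of_nonneg_left h1 (Real.sqrt_nonneg _)
      _ = (Real.sqrt X * X ^ (1 / 4 : ℝ)) / 200 := by ring
      _ ≤ X / 200 := by linarith
  have hmain : 3 / 10 * X ≤ (((Ioc ⌊X / 4⌋₊ ⌊X⌋₊).filter Nat.Prime).card : ℝ) * Real.log X := by
    rw [hl4] at hup
    nlinarith
  have hlog0 : 0 < Real.log X := by linarith
  rw [div_le_iff₀ (by positivity)]
  have hc0 : (0 : ℝ) ≤ (((Ioc ⌊X / 4⌋₊ ⌊X⌋₊).filter Nat.Prime).card : ℝ) := Nat.cast_nonneg _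
  calc 1 / 10 * X ≤ 3 / 10 * X := by linarith
    _ ≤ (((Ioc ⌊X / 4⌋₊ ⌊X⌋₊).filter Nat.Prime).card : ℝ) * Real.log X := hmain
    _ ≤ (((Ioc ⌊X / 4⌋₊ ⌊X⌋₊).filter Nat.Prime).card : ℝ) * Real.log X ^ 2 := by
        apply mul_le_mul_of_nonneg_left _ hc0
        nlinarith

end Pool.Agent.D0H30.PG
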