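import Pool.Agent.D0H45.PG.Stm

/-!
# Project PG (helper45), module NTH: the next prime
-/

set_option autoImplicit false

namespace Pool.Agent.D0H30.PG

open Finset Pool.Agent.Q240.KS Pool.Agent.D0H45.PG

/-- the next prime -/
theorem t_NTH : S_NTH := by
  intro c θ n hc h
  set p := Nat.nth Nat.Prime n with hp
  set p' := Nat.nth Nat.Prime (n + 1) with hp'
  have hpp : p.Prime := Nat.prime_nth_prime n
  have hp2 : 2 ≤ p := hpp.two_le
  have hpR : (2 : ℝ) ≤ (p : ℝ) := by exact_mod_cast hp2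
  have hp0 : (0 : ℝ) < (p : ℝ) := by linarith
  have hlog : 0 < Real.log p := Real.log_pos (by linarith)
  have hpos : 0 < c * (p : ℝ) ^ θ / Real.log p := by positivity
  have hcard : (0 : ℝ) < (pic p ((p : ℝ) ^ θ) : ℝ) := lt_of_lt_of_le hpos h
  have hcard' : 0 < pic p ((p : ℝ) ^ θ) := by exact_mod_cast hcard
  unfold pic at hcard'
  obtain ⟨q, hq⟩ := Finset.card_pos.1 hcard'
  rw [mem_filter, mem_Ioc, Nat.floor_natCast] at hq
  obtain ⟨⟨hq1, hq2⟩, hqp⟩ := hq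
  have hq3 : (q : ℝ) ≤ p + (p : ℝ) ^ θ := (Nat.le_floor_iff (by positivity)).1 hq2
  have hcount : Nat.nth Nat.Prime (Nat.count Nat.Prime q) = q := Nat.nth_count hqp
  have hinf := Nat.infinite_setOfPred_prime
  have hlt : n < Nat.count Nat.Prime q := by
    rw [hp, ← hcount] at hq1
    exact (Nat.nth_lt_nth hinf).1 hq1
  have hle : p' ≤ q := by
    rw [hp', ← hcount]
    exact (Nat.nth_le_nth hinf).2 hlt
  have hpp' : p < p' := (Nat.nth_lt_nth hinf).2 (Nat.lt_succ_self n)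
  have hleR : (p' : ℝ) ≤ p + (p : ℝ) ^ θ := le_trans (by exact_mod_cast hle) hq3
  have hppR : (p : ℝ) < (p' : ℝ) := by exact_mod_cast hpp'
  have hs : 0 < Real.sqrt p := Real.sqrt_pos.2 hp0
  have hs' : 0 ≤ Real.sqrt p' := Real.sqrt_nonneg _
  have e1 : Real.sqrt p ^ 2 = p := Real.sq_sqrt hp0.le
  have e2 : Real.sqrt p' ^ 2 = p' := Real.sq_sqrt (by linarith)
  have e3 : (p : ℝ) ^ (θ - 1 / 2) * Real.sqrt p = (p : ℝ) ^ θ := by
    rw [Real.sqrt_eq_rpow, ← Real.rpow_add hp0]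
    congr 1
    ring
  have e4 : Real.sqrt p ≤ Real.sqrt p' := Real.sqrt_le_sqrt hppR.le
  have e5 : (Real.sqrt p' - Real.sqrt p) * Real.sqrt p ≤ (p : ℝ) ^ (θ - 1 / 2) * Real.sqrt p := by
    rw [e3]
    nlinarith
  exact le_of_mul_le_mul_right e5 hs

end Pool.Agent.D0H30.PG
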